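import Pool.Agent.Lib.MP_43d240_ag.H56.Defs

set_option autoImplicit false

/-! # Module D2 of the chapter PAR: the even trace over `F = FE k` -/

namespace PiPar.H16

open WeierstrassCurve WeierstrassCurve.Affine PiPar

variable (k : Type*) [Field k]

theorem hN_neg (N : Type*) [Field N] [Algebra k N] (f : N) : hN k N (-f) = hN k N f := by
  unfold hN
  have : IntermediateField.adjoin k {-f} = IntermediateField.adjoin k {f} := by
    apply le_antisymm
    · rw [IntermediateField.adjoin_simple_le_iff]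
      exact neg_mem (IntermediateField.mem_adjoin_simple_self k f)
    · rw [IntermediateField.adjoin_simple_le_iff]
      have := neg_mem (IntermediateField.mem_adjoin_simple_self k (-f))
      rwa [neg_neg] at this
  rw [this]

theorem transcendental_of_not_mem [IsAlgClosed k] (N : Type*) [Field N] [Algebra k N] (x : N)
    (hx : x ∉ Set.range (algebraMap k N)) : Transcendental k x := by
  intro h
  apply hx
  have h1 : (minpoly k x).degree = 1 :=
    IsAlgClosed.degree_eq_one_of_irreducible k (minpoly.irreducible h.isIntegral)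
  exact minpoly.mem_range_of_degree_eq_one k x h1

theorem natCast_ne_FE [CharZero k] (n : ℕ) (hn : n ≠ 0) : (n : FE k) ≠ 0 := by
  rw [← map_natCast (algebraMap k (FE k)) n]
  intro h0
  rw [map_eq_zero] at h0
  exact hn (by exact_mod_cast h0)

theorem two_ne_FE [CharZero k] : (2 : FE k) ≠ 0 := by
  have := natCast_ne_FE k 2 two_ne_zero
  exact_mod_cast this

/-- if `y = 0` then `x` is a constant -/
theorem mem_range_of_y_eq_zero (N : Type*) [Field N] [Algebra k N] (x y : N)
    (h : y ^ 2 = x ^ 3 - x) (hy : y = 0) : x ∈ Set.range (algebraMap k N) := by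
  subst hy
  have h1 : x * ((x - 1) * (x + 1)) = 0 := by linear_combination -h
  rcases mul_eq_zero.1 h1 with h2 | h2
  · exact ⟨0, by rw [map_zero, h2]⟩
  · rcases mul_eq_zero.1 h2 with h3 | h3
    · exact ⟨1, by rw [map_one]; linear_combination -h3⟩
    · exact ⟨-1, by rw [map_neg, map_one]; linear_combination -h3⟩

variable [IsAlgClosed k] [CharZero k]

/-- Module D2, from the statements of the other modules. -/
theorem even_FE_of [DecidableEq (FE k)]
    (hA : ∀ (g : Pt (FE k) →+ k) (d : Pt (FE k) → ℤ) (i0 : k), i0 ^ 2 = -1 →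
      (∀ P Q, d (P + Q) + d (P - Q) = 2 * d P + 2 * d Q) → (∀ P, 0 ≤ d P) →
      (∀ P, d P = 0 ↔ g P = 0) →
      (∀ P Q, ∃ R, g R = g P * g Q ∧ d R = d P * d Q) →
      (∀ P, ∃ R, g R = i0 * g P ∧ d R = d P) →
      ∀ P0, g P0 = 1 → d P0 = 1 → ∀ P, Even (d (P + P0) - d P - d P0))
    (hB : ∀ (D : Derivation k (FE k) (FE k)) (P Q : Pt (FE k)),
      gQ D (P + Q) = gQ D P + gQ D Q)
    (hH2 : ∀ f : FE k, hN k (FE k) f = 0 ↔ f ∈ Set.range (algebraMap k (FE k)))
    (hH3 : ∀ (τ : FE k →ₐ[k] FE k) (f : FE k), hN k (FE k) (τ f) =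
      @Module.finrank (FE k) (FE k) _ _ (τ : FE k →+* FE k).toAlgebra.toModule * hN k (FE k) f)
    (hP1 : ∀ P Q : Pt (FE k), hx k (P + Q) + hx k (P - Q) = 2 * hx k P + 2 * hx k Q)
    (hC1 : hN k (FE k) (x0 k) = 2)
    (hC2 : ∀ x y : FE k, y ^ 2 = x ^ 3 - x → Transcendental k x →
      ∃ f : FE k →ₐ[k] FE k, f (x0 k) = x ∧ f (y0 k) = y)
    (hC3 : ∃ D : Derivation k (FE k) (FE k), D (x0 k) = y0 k ∧
      D (y0 k) = (3 * (x0 k) ^ 2 - 1) / 2)
    (hC6 : ∀ D : Derivation k (FE k) (FE k), D (x0 k) = y0 k →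
      D (y0 k) = (3 * (x0 k) ^ 2 - 1) / 2 →
      ∀ Q : Pt (FE k), gQ D Q ∈ Set.range (algebraMap k (FE k)))
    (hC7 : ∀ D : Derivation k (FE k) (FE k), D (x0 k) = y0 k →
      ∀ f, D f = 0 → f ∈ Set.range (algebraMap k (FE k)))
    (hD1 : ∀ D : Derivation k (FE k) (FE k), D (x0 k) = y0 k →
      D (y0 k) = (3 * (x0 k) ^ 2 - 1) / 2 → ∀ (ψ : FE k →ₐ[k] FE k) (f : FE k),
      D (ψ f) = (D (ψ (x0 k)) / ψ (y0 k)) * ψ (D f))
    (P0 : Pt (FE k))
    (hP0 : ∃ h, P0 = WeierstrassCurve.Affine.Point.some (x0 k) (y0 k) h) (P : Pt (FE k)) :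
    (4 : ℤ) ∣ (hx k (P + P0) : ℤ) - hx k P - hx k P0 := by
  obtain ⟨D, hDx, hDy⟩ := hC3
  have h2 := two_ne_FE k
  have heq : ∀ x y : FE k, (EF (FE k)).Nonsingular x y ↔ y ^ 2 = x ^ 3 - x :=
    EF_nonsingular h2
  -- the map `g`
  choose g0 hg0 using hC6 D hDx hDy
  have hinj : Function.Injective (algebraMap k (FE k)) := (algebraMap k (FE k)).injective
  let g : Pt (FE k) →+ k :=
    { toFun := g0
      map_zero' := by
        apply hinj
        rw [hg0, map_zero]; rfl
      map_add' := by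
        intro P Q
        apply hinj
        rw [hg0, map_add, hg0, hg0, hB] }
  have hg : ∀ P, algebraMap k (FE k) (g P) = gQ D P := hg0
  -- constants
  have hconst : ∀ (x y : FE k) (h : (EF (FE k)).Nonsingular x y),
      x ∈ Set.range (algebraMap k (FE k)) →
      g (WeierstrassCurve.Affine.Point.some x y h) = 0 := by
    rintro x y h ⟨c, rfl⟩
    apply hinj
    rw [hg, map_zero]
    change D (algebraMap k (FE k) c) / y = 0
    rw [Derivation.map_algebraMap, zero_div]
  have hgzero : ∀ (x y : FE k) (h : (EF (FE k)).Nonsingular x y),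
      g (WeierstrassCurve.Affine.Point.some x y h) = 0 →
      x ∈ Set.range (algebraMap k (FE k)) := by
    intro x y h h0
    have h1 := hg (WeierstrassCurve.Affine.Point.some x y h)
    rw [h0, map_zero] at h1
    change 0 = D x / y at h1
    rcases div_eq_zero_iff.1 h1.symm with h3 | h3
    · exact hC7 D hDx x h3
    · exact mem_range_of_y_eq_zero k (FE k) x y ((heq x y).1 h) h3
  -- the homomorphism of a non constant point
  have hhom : ∀ (x y : FE k) (h : (EF (FE k)).Nonsingular x y),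
      x ∉ Set.range (algebraMap k (FE k)) →
      ∃ ψ : FE k →ₐ[k] FE k, ψ (x0 k) = x ∧ ψ (y0 k) = y := by
    intro x y h hx
    exact hC2 x y ((heq x y).1 h) (transcendental_of_not_mem k (FE k) x hx)
  -- evenness
  have heven : ∀ P : Pt (FE k), ∃ n : ℕ, hx k P = 2 * n := by
    intro P
    rcases P with _ | ⟨x, y, h⟩
    · exact ⟨0, rfl⟩
    · by_cases hxc : x ∈ Set.range (algebraMap k (FE k))
      · refine ⟨0, ?_⟩
        rw [hx_some, (hH2 x).2 hxc]
      · obtain ⟨ψ, h1, -⟩ := hhom x y h hxc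
        have h3 := hH3 ψ (x0 k)
        rw [h1, hC1, mul_comm] at h3
        exact ⟨_, by rw [hx_some]; exact h3⟩
  choose d0 hd0 using heven
  let d : Pt (FE k) → ℤ := fun P => (d0 P : ℤ)
  have hd : ∀ P, (hx k P : ℤ) = 2 * d P := by
    intro P
    rw [hd0 P]; push_cast; rfl
  have hdpos : ∀ P, 0 ≤ d P := fun P => Int.natCast_nonneg _
  -- an element `i0`
  obtain ⟨i0, hi0⟩ : ∃ i0 : k, i0 ^ 2 = -1 := by
    obtain ⟨z, hz⟩ := IsAlgClosed.exists_pow_nat_eq (-1 : k) (n := 2) (by norm_num)
    exact ⟨z, hz⟩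
  have hpar : ∀ P Q, d (P + Q) + d (P - Q) = 2 * d P + 2 * d Q := by
    intro P Q
    have h1 := hP1 P Q
    have h3 : (hx k (P + Q) : ℤ) + hx k (P - Q) = 2 * hx k P + 2 * hx k Q := by
      exact_mod_cast h1
    rw [hd, hd, hd, hd] at h3
    linarith
  have hdzero : ∀ P, d P = 0 ↔ g P = 0 := by
    intro P
    have h1 : d P = 0 ↔ hx k P = 0 := by
      have := hd P
      constructor
      · intro h3; rw [h3] at this; exact_mod_cast this
      · intro h3; rw [h3] at this; push_cast at this; linarith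
    rw [h1]
    rcases P with _ | ⟨x, y, h⟩
    · constructor
      · intro _; exact map_zero g
      · intro _; rfl
    · rw [hx_some, hH2]
      exact ⟨hconst x y h, hgzero x y h⟩
  have hg0' : g 0 = 0 := map_zero g
  have hd00 : d 0 = 0 := (hdzero 0).2 hg0'
  have hmul : ∀ P Q, ∃ R, g R = g P * g Q ∧ d R = d P * d Q := by
    intro P Q
    by_cases hP : g P = 0
    · exact ⟨0, by rw [hg0', hP, zero_mul], by rw [hd00, (hdzero P).2 hP, zero_mul]⟩
    by_cases hQ : g Q = 0
    · exact ⟨0, by rw [hg0', hQ, mul_zero], by rw [hd00, (hdzero Q).2 hQ, mul_zero]⟩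
    rcases P with _ | ⟨x, y, h⟩
    · exact absurd hg0' hP
    rcases Q with _ | ⟨u, v, h'⟩
    · exact absurd hg0' hQ
    have hxc : x ∉ Set.range (algebraMap k (FE k)) := fun hc => hP (hconst x y h hc)
    have huc : u ∉ Set.range (algebraMap k (FE k)) := fun hc => hQ (hconst u v h' hc)
    obtain ⟨ψ, hψx, hψy⟩ := hhom u v h' huc
    have hns : (EF (FE k)).Nonsingular (ψ x) (ψ y) := by
      rw [heq, ← map_pow, ← map_pow, ← map_sub, (heq x y).1 h]
    refine ⟨WeierstrassCurve.Affine.Point.some (ψ x) (ψ y) hns, ?_, ?_⟩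
    · apply hinj
      rw [map_mul, hg, hg, hg]
      change D (ψ x) / ψ y = D x / y * (D u / v)
      have h3 : gQ D (WeierstrassCurve.Affine.Point.some x y h) = D x / y := rfl
      have h4 : ψ (D x / y) = D x / y := by
        rw [← h3, ← hg, AlgHom.commutes]
      rw [hD1 D hDx hDy ψ x, hψx, hψy, mul_div_assoc, ← map_div₀, h4, mul_comm]
    · have h3 := hH3 ψ (x0 k)
      have h4 := hH3 ψ x
      rw [hψx, hC1] at h3
      have h5 := hd (WeierstrassCurve.Affine.Point.some u v h')
      have h6 := hd (WeierstrassCurve.Affine.Point.some x y h)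
      have h7 := hd (WeierstrassCurve.Affine.Point.some (ψ x) (ψ y) hns)
      rw [hx_some] at h5 h6 h7
      rw [h3] at h5
      rw [h4] at h7
      set m : ℕ := @Module.finrank (FE k) (FE k) _ _ (ψ : FE k →+* FE k).toAlgebra.toModule
      push_cast at h5 h7
      rw [h6] at h7
      have h8 : d (WeierstrassCurve.Affine.Point.some u v h') = m := by linarith
      rw [h8]
      linarith
  have hI : ∀ P, ∃ R, g R = i0 * g P ∧ d R = d P := by
    intro P
    rcases P with _ | ⟨x, y, h⟩
    · refine ⟨0, ?_, rfl⟩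
      rw [hg0']
      have : g (WeierstrassCurve.Affine.Point.zero) = 0 := hg0'
      rw [this, mul_zero]
    · have hi' : (algebraMap k (FE k) i0) ^ 2 = -1 := by
        rw [← map_pow, hi0, map_neg, map_one]
      have hi1 : algebraMap k (FE k) i0 ≠ 0 := by
        intro h0; rw [h0] at hi'
        norm_num at hi'
      have hns : (EF (FE k)).Nonsingular (-x) (algebraMap k (FE k) i0 * y) := by
        rw [heq, mul_pow, hi', (heq x y).1 h]; ring
      refine ⟨WeierstrassCurve.Affine.Point.some (-x) (algebraMap k (FE k) i0 * y) hns, ?_, ?_⟩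
      · apply hinj
        rw [map_mul, hg, hg]
        change D (-x) / (algebraMap k (FE k) i0 * y) = algebraMap k (FE k) i0 * (D x / y)
        rw [map_neg]
        by_cases hy : y = 0
        · rw [hy]; simp
        · field_simp
          linear_combination (-D x) * hi'
      · have h5 := hd (WeierstrassCurve.Affine.Point.some (-x) (algebraMap k (FE k) i0 * y) hns)
        have h6 := hd (WeierstrassCurve.Affine.Point.some x y h)
        rw [hx_some] at h5 h6
        rw [hN_neg, h6] at h5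
        linarith
  obtain ⟨hns0, rfl⟩ := hP0
  have hdP0 : d (WeierstrassCurve.Affine.Point.some (x0 k) (y0 k) hns0) = 1 := by
    have h5 := hd (WeierstrassCurve.Affine.Point.some (x0 k) (y0 k) hns0)
    rw [hx_some, hC1] at h5
    push_cast at h5
    linarith
  have hy0 : y0 k ≠ 0 := by
    intro hy
    have h3 := mem_range_of_y_eq_zero k (FE k) (x0 k) (y0 k) ((heq _ _).1 hns0) hy
    have h4 := (hH2 (x0 k)).2 h3
    omega
  have hgP0 : g (WeierstrassCurve.Affine.Point.some (x0 k) (y0 k) hns0) = 1 := by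
    apply hinj
    rw [hg, map_one]
    change D (x0 k) / y0 k = 1
    rw [hDx, div_self hy0]
  obtain ⟨m, hm⟩ := hA g d i0 hi0 hpar hdpos hdzero hmul hI _ hgP0 hdP0 P
  rw [hd, hd, hd]
  exact ⟨m, by linarith⟩

end PiPar.H16
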